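import Mathlib
import Pool.Agent.Helper256.KM.Mertens

set_option autoImplicit false

namespace Pool.Agent.H791R3

open Finset

/-- sum of four squares -/
def sq4 {R : Type*} [Semiring R] (v : Fin 4 → R) : R := v 0 ^ 2 + v 1 ^ 2 + v 2 ^ 2 + v 3 ^ 2

/-- number of zeros of the sum of four squares modulo `L` -/
noncomputable def zc (L : ℕ) : ℕ := Nat.card {v : Fin 4 → ZMod L // sq4 v = 0}

theorem zc_prime (p : ℕ) [Fact p.Prime] (hp : p ≠ 2) : p ^ 3 + p ^ 2 ≤ zc p + p := by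
  classical
  obtain ⟨x, y, hxy⟩ := ZMod.sq_add_sq p (-1)
  have h2 : (2 : ZMod p) ≠ 0 := by
    intro h
    have h' : ((2 : ℕ) : ZMod p) = 0 := by exact_mod_cast h
    rw [ZMod.natCast_eq_zero_iff] at h'
    exact hp ((Nat.prime_dvd_prime_iff_eq Fact.out Nat.prime_two).1 h')
  let F := ZMod p
  let mk : F → F → F → F → (Fin 4 → F) := fun X Y Z W =>
    ![X + Y, W - Z, -(x * (Y - X) + y * (Z + W)), y * (Y - X) - x * (Z + W)]
  have hmk : ∀ X Y Z W : F, X * Y = Z * W → sq4 (mk X Y Z W) = 0 := by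
    intro X Y Z W h
    simp only [sq4, mk, Matrix.cons_val]
    linear_combination 4 * h + ((Y - X) ^ 2 + (Z + W) ^ 2) * hxy
  have hinj : ∀ X Y Z W X' Y' Z' W' : F, mk X Y Z W = mk X' Y' Z' W' →
      X = X' ∧ Y = Y' ∧ Z = Z' ∧ W = W' := by
    intro X Y Z W X' Y' Z' W' h
    have h0 := congrFun h 0
    have h1 := congrFun h 1
    have h2' := congrFun h 2
    have h3 := congrFun h 3
    simp only [mk, Matrix.cons_val] at h0 h1 h2' h3
    have e1 : (Y - X) = (Y' - X') := by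
      linear_combination x * h2' - y * h3 + ((Y - X) - (Y' - X')) * hxy
    have e2 : (Z + W) = (Z' + W') := by
      linear_combination y * h2' + x * h3 + ((Z + W) - (Z' + W')) * hxy
    refine ⟨?_, ?_, ?_, ?_⟩ <;> apply mul_left_cancel₀ h2
    · linear_combination h0 - e1
    · linear_combination h0 + e1
    · linear_combination e2 - h1
    · linear_combination e2 + h1
  let g : ({v : F × F // v ≠ 0} × F) ⊕ (F × F) → {v : Fin 4 → F // sq4 v = 0} := fun s =>
    match s with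
    | Sum.inl ⟨v, t⟩ => ⟨mk v.1.1 (t * v.1.2) v.1.2 (t * v.1.1), hmk _ _ _ _ (by ring)⟩
    | Sum.inr ⟨Y, W⟩ => ⟨mk 0 Y 0 W, hmk _ _ _ _ (by ring)⟩
  have hg : Function.Injective g := by
    rintro (⟨⟨v, hv⟩, t⟩ | ⟨Y, W⟩) (⟨⟨v', hv'⟩, t'⟩ | ⟨Y', W'⟩) h
    · have h' := congrArg Subtype.val h
      simp only [g] at h'
      obtain ⟨a1, a2, a3, a4⟩ := hinj _ _ _ _ _ _ _ _ h'
      have hvv : v = v' := Prod.ext a1 a3
      subst hvv
      have ht : t = t' := by
        by_cases hz : v.1 = 0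
        · have hz2 : v.2 ≠ 0 := by
            intro h0
            exact hv (Prod.ext hz h0)
          exact mul_right_cancel₀ hz2 a2
        · exact mul_right_cancel₀ hz a4
      subst ht
      rfl
    · have h' := congrArg Subtype.val h
      simp only [g] at h'
      obtain ⟨a1, a2, a3, a4⟩ := hinj _ _ _ _ _ _ _ _ h'
      exact absurd (Prod.ext a1 a3) hv
    · have h' := congrArg Subtype.val h
      simp only [g] at h'
      obtain ⟨a1, a2, a3, a4⟩ := hinj _ _ _ _ _ _ _ _ h'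
      exact absurd (Prod.ext a1.symm a3.symm) hv'
    · have h' := congrArg Subtype.val h
      simp only [g] at h'
      obtain ⟨a1, a2, a3, a4⟩ := hinj _ _ _ _ _ _ _ _ h'
      subst a2; subst a4; rfl
  have hcard := Nat.card_le_card_of_injective g hg
  have hc1 : Nat.card (({v : F × F // v ≠ 0} × F) ⊕ (F × F)) = (p * p - 1) * p + p * p := by
    rw [Nat.card_sum, Nat.card_prod, Nat.card_prod]
    have : Nat.card {v : F × F // v ≠ 0} = p * p - 1 := by
      rw [Nat.card_eq_fintype_card, Fintype.card_subtype_compl, Fintype.card_prod]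
      simp [F, ZMod.card]
    rw [this, Nat.card_eq_fintype_card, ZMod.card]
  rw [hc1] at hcard
  have hpp : 1 ≤ p * p := Nat.mul_pos (Fact.out : p.Prime).pos (Fact.out : p.Prime).pos
  have : (p * p - 1) * p + p = p ^ 3 := by
    have : (p * p - 1) * p + p = (p * p - 1 + 1) * p := by ring
    rw [this, Nat.sub_add_cancel hpp]; ring
  unfold zc
  have h3 : p ^ 2 = p * p := sq p
  change (p * p - 1) * p + p * p ≤ Nat.card {v : Fin 4 → ZMod p // sq4 v = 0} at hcard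
  omega

theorem zc_mul (m n : ℕ) [NeZero m] [NeZero n] (h : Nat.Coprime m n) :
    zc m * zc n ≤ zc (m * n) := by
  classical
  unfold zc
  rw [← Nat.card_prod]
  have e := ZMod.chineseRemainder h
  have : NeZero (m * n) := ⟨mul_ne_zero (NeZero.ne m) (NeZero.ne n)⟩
  let g : {v : Fin 4 → ZMod m // sq4 v = 0} × {v : Fin 4 → ZMod n // sq4 v = 0} →
      {v : Fin 4 → ZMod (m * n) // sq4 v = 0} := fun s =>
    ⟨fun i => e.symm (s.1.1 i, s.2.1 i), by
      have h1 := s.1.2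
      have h2 := s.2.2
      simp only [sq4] at h1 h2 ⊢
      simp only [← map_pow, ← map_add]
      rw [map_eq_zero_iff e.symm e.symm.injective]
      simp only [Prod.mk_add_mk, Prod.pow_mk]
      rw [h1, h2]; rfl⟩
  refine Nat.card_le_card_of_injective g ?_
  rintro ⟨⟨v, hv⟩, ⟨w, hw⟩⟩ ⟨⟨v', hv'⟩, ⟨w', hw'⟩⟩ h
  have h' := congrArg Subtype.val h
  simp only [g] at h'
  have h3 : ∀ i, (v i, w i) = (v' i, w' i) := fun i => e.symm.injective (congrFun h' i)
  have hv3 : v = v' := funext fun i => (Prod.mk.inj (h3 i)).1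
  have hw3 : w = w' := funext fun i => (Prod.mk.inj (h3 i)).2
  subst hv3; subst hw3; rfl

theorem zc_one : zc 1 = 1 := by
  unfold zc
  have : Subsingleton (Fin 4 → ZMod 1) := inferInstance
  have : Unique {v : Fin 4 → ZMod 1 // sq4 v = 0} :=
    { default := ⟨fun _ => 0, Subsingleton.elim _ _⟩
      uniq := fun a => Subtype.ext (Subsingleton.elim _ _) }
  exact Nat.card_unique

theorem zc_prod (s : Finset ℕ) (hs : ∀ p ∈ s, p.Prime ∧ p ≠ 2) :
    ∏ p ∈ s, (1 + 1 / (p : ℝ) - 1 / (p : ℝ) ^ 2) ≤ (zc (∏ p ∈ s, p) : ℝ) / ((∏ p ∈ s, p : ℕ) : ℝ) ^ 3 := by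
  classical
  induction s using Finset.induction_on with
  | empty => simp [zc_one]
  | insert p s hps ih =>
    have hs' : ∀ q ∈ s, q.Prime ∧ q ≠ 2 := fun q hq => hs q (Finset.mem_insert_of_mem hq)
    have hp := hs p (Finset.mem_insert_self _ _)
    have ih' := ih hs'
    rw [Finset.prod_insert hps, Finset.prod_insert hps]
    have : Fact p.Prime := ⟨hp.1⟩
    have : NeZero p := ⟨hp.1.ne_zero⟩
    have hne : ∏ q ∈ s, q ≠ 0 := Finset.prod_ne_zero_iff.2 fun q hq => (hs' q hq).1.ne_zero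
    have : NeZero (∏ q ∈ s, q) := ⟨hne⟩
    have hcop : Nat.Coprime p (∏ q ∈ s, q) := by
      refine Nat.Coprime.prod_right fun q hq => ?_
      exact (Nat.coprime_primes hp.1 (hs' q hq).1).2 (fun h => hps (h ▸ hq))
    have h1 := zc_mul p (∏ q ∈ s, q) hcop
    have h2 := zc_prime p hp.2
    have h1' : (zc p : ℝ) * zc (∏ q ∈ s, q) ≤ zc (p * ∏ q ∈ s, q) := by exact_mod_cast h1
    have h2' : (p : ℝ) ^ 3 + p ^ 2 ≤ zc p + p := by exact_mod_cast h2
    have hp0 : (0 : ℝ) < p := by exact_mod_cast hp.1.pos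
    have hL0 : (0 : ℝ) < ((∏ q ∈ s, q : ℕ) : ℝ) := by exact_mod_cast Nat.pos_of_ne_zero hne
    have h3 : 1 + 1 / (p : ℝ) - 1 / (p : ℝ) ^ 2 ≤ (zc p : ℝ) / p ^ 3 := by
      rw [le_div_iff₀ (by positivity)]
      have : (1 + 1 / (p : ℝ) - 1 / (p : ℝ) ^ 2) * p ^ 3 = p ^ 3 + p ^ 2 - p := by
        field_simp
      rw [this]; linarith
    have hnn : 0 ≤ ∏ q ∈ s, (1 + 1 / (q : ℝ) - 1 / (q : ℝ) ^ 2) := by
      refine Finset.prod_nonneg fun q hq => ?_
      have hq1 : (1 : ℝ) ≤ q := by exact_mod_cast (hs' q hq).1.one_lt.le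
      have : 1 / (q : ℝ) ^ 2 ≤ 1 / q := by
        rw [div_le_div_iff₀ (by positivity) (by positivity)]
        nlinarith
      linarith
    calc (1 + 1 / (p : ℝ) - 1 / (p : ℝ) ^ 2) * ∏ q ∈ s, (1 + 1 / (q : ℝ) - 1 / (q : ℝ) ^ 2)
        ≤ ((zc p : ℝ) / p ^ 3) * ((zc (∏ q ∈ s, q) : ℝ) / ((∏ q ∈ s, q : ℕ) : ℝ) ^ 3) :=
          mul_le_mul h3 ih' hnn (by positivity)
      _ = ((zc p : ℝ) * zc (∏ q ∈ s, q)) / ((p * ∏ q ∈ s, q : ℕ) : ℝ) ^ 3 := by
          push_cast
          rw [div_mul_div_comm]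
          ring
      _ ≤ (zc (p * ∏ q ∈ s, q) : ℝ) / ((p * ∏ q ∈ s, q : ℕ) : ℝ) ^ 3 := by
          gcongr

/-- odd primes up to `y` -/
def oddP (y : ℕ) : Finset ℕ := (Finset.Icc 3 y).filter Nat.Prime

/-- product of the odd primes up to `y` -/
def LL (y : ℕ) : ℕ := ∏ p ∈ oddP y, p

theorem LL_le (y : ℕ) : LL y ≤ 4 ^ y := by
  refine le_trans ?_ (primorial_le_four_pow y)
  unfold LL primorial
  refine Finset.prod_le_prod_of_subset_of_one_le' ?_ ?_
  · intro p hp
    simp only [oddP, Finset.mem_filter, Finset.mem_Icc] at hp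
    simp only [Finset.mem_filter, Finset.mem_range]
    exact ⟨by omega, hp.2⟩
  · intro p hp _
    simp only [Finset.mem_filter] at hp
    exact hp.2.one_lt.le

theorem LL_pos (y : ℕ) : 0 < LL y := by
  unfold LL
  refine Finset.prod_pos fun p hp => ?_
  simp only [oddP, Finset.mem_filter] at hp
  exact hp.2.pos

theorem prod_ge : ∃ c : ℝ, 0 < c ∧ ∀ y : ℕ, 3 ≤ y →
    c * Real.log y ≤ ∏ p ∈ oddP y, (1 + 1 / (p : ℝ) - 1 / (p : ℝ) ^ 2) := by
  obtain ⟨C, hC⟩ := Pool.Agent.Helper256.KM.mertens_inv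
  have hs : Summable (fun n : ℕ => 1 / (n : ℝ) ^ 2) := Real.summable_one_div_nat_pow.2 (by norm_num)
  set S := ∑' n : ℕ, 1 / (n : ℝ) ^ 2 with hS
  refine ⟨Real.exp (-(C + 1 / 2 + 2 * S)), Real.exp_pos _, ?_⟩
  intro y hy
  have hly : 0 < Real.log y := Real.log_pos (by
    have : (3 : ℝ) ≤ y := by exact_mod_cast hy
    linarith)
  have h1 := (abs_le.mp (hC y hy)).1
  have h2 : ∑ p ∈ (Finset.Icc 1 y).filter Nat.Prime, (1 : ℝ) / p ≤
      1 / 2 + ∑ p ∈ oddP y, 1 / (p:ℝ) := by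
    have hsub : (Finset.Icc 1 y).filter Nat.Prime ⊆ insert 2 (oddP y) := by
      intro p hp
      rw [mem_filter, mem_Icc] at hp
      rw [mem_insert]
      rcases Nat.lt_or_ge p 3 with h | h
      · left
        have := hp.2.two_le
        omega
      · right
        unfold oddP
        rw [mem_filter, mem_Icc]
        exact ⟨⟨h, hp.1.2⟩, hp.2⟩
    refine (sum_le_sum_of_subset_of_nonneg hsub fun i _ _ => by positivity).trans ?_
    rw [sum_insert]
    · norm_num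
    · unfold oddP
      rw [mem_filter, mem_Icc]
      omega
  have hS2 : ∑ p ∈ oddP y, 1 / (p:ℝ) ^ 2 ≤ S := hs.sum_le_tsum _ fun n _ => by positivity
  have h5 : ∏ p ∈ oddP y, Real.exp (1 / (p:ℝ) - 2 * (1 / (p:ℝ) ^ 2)) ≤
      ∏ p ∈ oddP y, (1 + 1 / (p : ℝ) - 1 / (p : ℝ) ^ 2) := by
    refine prod_le_prod (fun p _ => (Real.exp_pos _).le) fun p hp => ?_
    simp only [oddP, Finset.mem_filter, Finset.mem_Icc] at hp
    have hp3 : (3 : ℝ) ≤ p := by exact_mod_cast hp.1.1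
    set u : ℝ := 1 / (p : ℝ) with hu
    have hu2 : 1 / (p : ℝ) ^ 2 = u ^ 2 := by rw [hu]; ring
    have hu0 : 0 < u := by positivity
    have hu3 : u ≤ 1 / 3 := one_div_le_one_div_of_le (by norm_num) hp3
    rw [hu2, ← Real.le_log_iff_exp_le (by nlinarith)]
    have hx : 0 ≤ u - u ^ 2 := by nlinarith
    have := Real.le_log_one_add_of_nonneg hx
    have h6 : 1 + u - u ^ 2 = 1 + (u - u ^ 2) := by ring
    rw [h6]
    refine le_trans ?_ this
    rw [le_div_iff₀ (by linarith)]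
    nlinarith [mul_pos hu0 hu0, mul_pos (mul_pos hu0 hu0) hu0, mul_pos (mul_pos hu0 hu0) (mul_pos hu0 hu0)]
  refine le_trans ?_ h5
  rw [← Real.exp_sum, sum_sub_distrib, ← mul_sum]
  calc Real.exp (-(C + 1 / 2 + 2 * S)) * Real.log y
      = Real.exp (-(C + 1 / 2 + 2 * S)) * Real.exp (Real.log (Real.log y)) := by
        rw [Real.exp_log hly]
    _ = Real.exp (-(C + 1 / 2 + 2 * S) + Real.log (Real.log y)) := by rw [← Real.exp_add]
    _ ≤ _ := by
        refine Real.exp_le_exp.mpr ?_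
        linarith

theorem zc_LL : ∃ c : ℝ, 0 < c ∧ ∀ y : ℕ, 3 ≤ y →
    c * Real.log y ≤ (zc (LL y) : ℝ) / (LL y : ℝ) ^ 3 := by
  obtain ⟨c, hc, h⟩ := prod_ge
  refine ⟨c, hc, fun y hy => (h y hy).trans ?_⟩
  refine zc_prod (oddP y) fun p hp => ?_
  simp only [oddP, Finset.mem_filter, Finset.mem_Icc] at hp
  exact ⟨hp.2, by omega⟩

end Pool.Agent.H791R3
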