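import Mathlib
import Pool.Agent.H791R3.Zeros

set_option autoImplicit false

namespace Pool.Agent.H791R3

open Finset

/-- the sum of the squares of the four coordinates -/
def nrm {K : ℕ} (q : Fin 4 → Fin K) : ℕ :=
  (q 0 : ℕ) ^ 2 + (q 1 : ℕ) ^ 2 + (q 2 : ℕ) ^ 2 + (q 3 : ℕ) ^ 2

/-- quadruples in the box with sum of squares `m` -/
def QK (K m : ℕ) : Finset (Fin 4 → Fin K) := univ.filter fun q => nrm q = m

theorem nrm_lt {K : ℕ} (q : Fin 4 → Fin K) : nrm q < 4 * K ^ 2 := by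
  have h : ∀ i, (q i : ℕ) ^ 2 < K ^ 2 := fun i => Nat.pow_lt_pow_left (q i).2 (by norm_num)
  have h0 := h 0
  have h1 := h 1
  have h2 := h 2
  have h3 := h 3
  unfold nrm
  omega

theorem nrm_zero {K : ℕ} {q : Fin 4 → Fin K} (h : nrm q = 0) (i : Fin 4) : (q i : ℕ) = 0 := by
  unfold nrm at h
  have h0 : (q 0 : ℕ) ^ 2 = 0 := by omega
  have h1 : (q 1 : ℕ) ^ 2 = 0 := by omega
  have h2 : (q 2 : ℕ) ^ 2 = 0 := by omega
  have h3 : (q 3 : ℕ) ^ 2 = 0 := by omega
  fin_cases i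
  · exact pow_eq_zero_iff (two_ne_zero) |>.1 h0
  · exact pow_eq_zero_iff (two_ne_zero) |>.1 h1
  · exact pow_eq_zero_iff (two_ne_zero) |>.1 h2
  · exact pow_eq_zero_iff (two_ne_zero) |>.1 h3

theorem box_card (L K : ℕ) (hL : 0 < L) (hLK : L ∣ K) :
    (K / L) ^ 4 * zc L ≤ (univ.filter fun q : Fin 4 → Fin K => L ∣ nrm q).card := by
  classical
  have : NeZero L := ⟨hL.ne'⟩
  obtain ⟨t, rfl⟩ := hLK
  rw [Nat.mul_div_cancel_left t hL]
  have h1 : t ^ 4 * zc L = Nat.card ({v : Fin 4 → ZMod L // sq4 v = 0} × (Fin 4 → Fin t)) := by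
    rw [Nat.card_prod, Nat.card_eq_fintype_card (α := Fin 4 → Fin t)]
    simp [zc, mul_comm]
  rw [h1]
  have h2 : (univ.filter fun q : Fin 4 → Fin (L * t) => L ∣ nrm q).card =
      Nat.card {q : Fin 4 → Fin (L * t) // L ∣ nrm q} := by
    rw [Nat.card_eq_fintype_card, Fintype.card_subtype]
  rw [h2]
  have hlt : ∀ (a : ZMod L) (j : Fin t), a.val + L * (j : ℕ) < L * t := by
    intro a j
    have h3 := ZMod.val_lt a
    have h4 := j.2
    calc a.val + L * (j : ℕ) < L + L * (j : ℕ) := by omega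
      _ = L * ((j : ℕ) + 1) := by ring
      _ ≤ L * t := Nat.mul_le_mul_left _ h4
  let g : {v : Fin 4 → ZMod L // sq4 v = 0} × (Fin 4 → Fin t) →
      {q : Fin 4 → Fin (L * t) // L ∣ nrm q} := fun s =>
    ⟨fun i => ⟨(s.1.1 i).val + L * (s.2 i : ℕ), hlt _ _⟩, by
      rw [← ZMod.natCast_eq_zero_iff]
      have h3 := s.1.2
      unfold nrm sq4 at *
      push_cast
      simp only [ZMod.natCast_self, zero_mul, add_zero, ZMod.natCast_val, ZMod.cast_id', id]
      exact h3⟩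
  refine Nat.card_le_card_of_injective g ?_
  rintro ⟨⟨v, hv⟩, j⟩ ⟨⟨v', hv'⟩, j'⟩ h
  have h' := congrArg Subtype.val h
  simp only [g] at h'
  have h3 : ∀ i, (v i).val + L * (j i : ℕ) = (v' i).val + L * (j' i : ℕ) := fun i =>
    congrArg Fin.val (congrFun h' i)
  have h4 : ∀ i, (v i).val = (v' i).val := by
    intro i
    have a1 := congrArg (· % L) (h3 i)
    simp only [Nat.add_mul_mod_self_left, Nat.mod_eq_of_lt (ZMod.val_lt _)] at a1
    exact a1
  have h5 : ∀ i, (j i : ℕ) = (j' i : ℕ) := by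
    intro i
    have a1 := h3 i
    rw [h4 i] at a1
    exact Nat.eq_of_mul_eq_mul_left hL (Nat.add_left_cancel a1)
  have hv3 : v = v' := funext fun i => ZMod.val_injective L (h4 i)
  have hj3 : j = j' := funext fun i => Fin.ext (h5 i)
  subst hv3; subst hj3; rfl

theorem pigeon (L K : ℕ) (hL : 0 < L) (hK : 0 < K) (hLK : L ∣ K)
    (hbig : 1 < (K : ℝ) ^ 2 / 4 * ((zc L : ℝ) / (L : ℝ) ^ 3)) :
    ∃ m, 0 < m ∧ m < 4 * K ^ 2 ∧
      (K : ℝ) ^ 2 / 4 * ((zc L : ℝ) / (L : ℝ) ^ 3) ≤ ((QK K m).card : ℝ) := by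
  classical
  set A : ℝ := (K : ℝ) ^ 2 / 4 * ((zc L : ℝ) / (L : ℝ) ^ 3) with hA
  have hL0 : (0 : ℝ) < L := by exact_mod_cast hL
  have hK0 : (0 : ℝ) < K := by exact_mod_cast hK
  have key : ∃ m, m < 4 * K ^ 2 ∧ A ≤ ((QK K m).card : ℝ) := by
    by_contra hcon
    push Not at hcon
    have hsub : (univ.filter fun q : Fin 4 → Fin K => L ∣ nrm q) ⊆
        (range (4 * K ^ 2 / L)).biUnion fun j => QK K (L * j) := by
      intro q hq
      simp only [mem_filter, mem_univ, true_and] at hq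
      obtain ⟨j, hj⟩ := hq
      simp only [mem_biUnion, mem_range, QK, mem_filter, mem_univ, true_and]
      refine ⟨j, ?_, hj⟩
      have h1 := nrm_lt q
      have hd : L ∣ 4 * K ^ 2 := dvd_mul_of_dvd_right (dvd_pow hLK two_ne_zero) _
      obtain ⟨u, hu⟩ := hd
      rw [hu, Nat.mul_div_cancel_left _ hL]
      rw [hj, hu] at h1
      exact Nat.lt_of_mul_lt_mul_left h1
    have h1 := box_card L K hL hLK
    have h2 := (card_le_card hsub).trans card_biUnion_le
    have h3 : ((K / L : ℕ) : ℝ) ^ 4 * zc L ≤ ∑ j ∈ range (4 * K ^ 2 / L), ((QK K (L * j)).card : ℝ) := by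
      have := h1.trans h2
      exact_mod_cast this
    have hd : L ∣ 4 * K ^ 2 := dvd_mul_of_dvd_right (dvd_pow hLK two_ne_zero) _
    have hpos : 0 < 4 * K ^ 2 / L := Nat.div_pos (Nat.le_of_dvd (by positivity) hd) hL
    have h4 : ∑ j ∈ range (4 * K ^ 2 / L), ((QK K (L * j)).card : ℝ) <
        ∑ j ∈ range (4 * K ^ 2 / L), A := by
      refine sum_lt_sum_of_nonempty ⟨0, mem_range.2 hpos⟩ fun j hj => ?_
      apply hcon
      rw [mem_range] at hj
      calc L * j < L * (4 * K ^ 2 / L) := Nat.mul_lt_mul_of_pos_left hj hL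
        _ = 4 * K ^ 2 := Nat.mul_div_cancel' hd
    rw [sum_const, card_range, nsmul_eq_mul] at h4
    have h5 : ((4 * K ^ 2 / L : ℕ) : ℝ) = 4 * (K : ℝ) ^ 2 / L := by
      rw [Nat.cast_div hd hL0.ne']; push_cast; ring
    have h6 : ((K / L : ℕ) : ℝ) = (K : ℝ) / L := by
      rw [Nat.cast_div hLK hL0.ne']
    rw [h5] at h4
    rw [h6] at h3
    have h7 : 4 * (K : ℝ) ^ 2 / L * A = ((K : ℝ) / L) ^ 4 * zc L := by
      rw [hA]; field_simp
    linarith
  obtain ⟨m, hm, hm2⟩ := key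
  refine ⟨m, ?_, hm, hm2⟩
  rcases Nat.eq_zero_or_pos m with h0 | h0
  · exfalso
    subst h0
    have h1 : (QK K 0).card ≤ 1 := by
      rw [card_le_one]
      intro a ha b hb
      simp only [QK, mem_filter, mem_univ, true_and] at ha hb
      funext i
      apply Fin.ext
      have ha' := nrm_zero ha
      have hb' := nrm_zero hb
      rw [ha' i, hb' i]
    have h2 : ((QK K 0).card : ℝ) ≤ 1 := by exact_mod_cast h1
    linarith
  · exact h0

end Pool.Agent.H791R3
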