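import Mathlib
import Pool.Agent.H791R3.Box

set_option autoImplicit false

namespace Pool.Agent.H791R3

open Finset

/-- Euclidean space of dimension three -/
abbrev E3 := EuclideanSpace ℝ (Fin 3)

/-- `x ↦ q x q̄` for the quaternion `q = (a, b, c, d)` -/
def rot {R : Type*} [CommRing R] (a b c d : R) (x : Fin 3 → R) : Fin 3 → R :=
  ![(a ^ 2 + b ^ 2 - c ^ 2 - d ^ 2) * x 0 + 2 * (b * c - a * d) * x 1 + 2 * (b * d + a * c) * x 2,
    2 * (b * c + a * d) * x 0 + (a ^ 2 - b ^ 2 + c ^ 2 - d ^ 2) * x 1 + 2 * (c * d - a * b) * x 2,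
    2 * (b * d - a * c) * x 0 + 2 * (c * d + a * b) * x 1 + (a ^ 2 - b ^ 2 - c ^ 2 + d ^ 2) * x 2]

/-- the vector of `ℝ³` with coordinates `s * z i` -/
noncomputable def emb (s : ℝ) (z : Fin 3 → ℤ) : E3 := WithLp.toLp 2 (fun i => s * (z i : ℝ))

theorem emb_inj (s : ℝ) (hs : s ≠ 0) : Function.Injective (emb s) := by
  intro z z' h
  funext i
  have h1 := congrArg (fun v : E3 => v i) h
  simp only [emb] at h1
  exact_mod_cast mul_left_cancel₀ hs h1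

/-- the real linear map given by `rot` -/
noncomputable def rotL (a b c d : ℝ) : E3 →ₗ[ℝ] E3 where
  toFun x := WithLp.toLp 2 (rot a b c d (fun i => x i))
  map_add' x y := by
    ext i
    fin_cases i <;> simp [rot] <;> ring
  map_smul' r x := by
    ext i
    fin_cases i <;> simp [rot] <;> ring

theorem exists_iso (a b c d : ℝ) (m : ℝ) (hm : 0 < m) (h : a ^ 2 + b ^ 2 + c ^ 2 + d ^ 2 = m)
    (v : E3) : ∃ f : E3 ≃ᵢ E3, ∀ x, f x = (1 / m) • rotL a b c d x + v := by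
  let L : E3 →ₗᵢ[ℝ] E3 :=
    { toLinearMap := (1 / m) • rotL a b c d
      norm_map' := by
        intro x
        have h1 : ‖((1 / m) • rotL a b c d) x‖ ^ 2 = ‖x‖ ^ 2 := by
          rw [EuclideanSpace.norm_sq_eq, EuclideanSpace.norm_sq_eq]
          simp only [Fin.sum_univ_three, Real.norm_eq_abs, sq_abs, LinearMap.smul_apply,
            PiLp.smul_apply, smul_eq_mul, rotL, LinearMap.coe_mk, AddHom.coe_mk, rot,
            Matrix.cons_val]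
          subst h
          field_simp
          ring
        exact (sq_eq_sq₀ (norm_nonneg _) (norm_nonneg _)).1 h1 }
  let e : E3 ≃ₗᵢ[ℝ] E3 := L.toLinearIsometryEquiv rfl
  refine ⟨e.toIsometryEquiv.trans (IsometryEquiv.addRight v), fun x => ?_⟩
  simp only [IsometryEquiv.trans_apply, LinearIsometryEquiv.coe_toIsometryEquiv,
    IsometryEquiv.addRight_apply]
  rfl

/-- integer quadruple of a quadruple of the box -/
def rq {K : ℕ} (q : Fin 4 → Fin K) (x : Fin 3 → ℤ) : Fin 3 → ℤ :=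
  rot ((q 0 : ℕ) : ℤ) ((q 1 : ℕ) : ℤ) ((q 2 : ℕ) : ℤ) ((q 3 : ℕ) : ℤ) x

theorem rotL_emb {K : ℕ} (q : Fin 4 → Fin K) (s : ℝ) (t : Fin 3 → ℤ) :
    rotL ((q 0 : ℕ) : ℝ) ((q 1 : ℕ) : ℝ) ((q 2 : ℕ) : ℝ) ((q 3 : ℕ) : ℝ) (emb s t) =
      emb s (rq q t) := by
  ext i
  fin_cases i <;> simp [rotL, rot, rq, emb] <;> ring

theorem emb_add (s : ℝ) (z z' : Fin 3 → ℤ) : emb s (z + z') = emb s z + emb s z' := by
  ext i
  simp [emb]; ring

theorem emb_smul (r s : ℝ) (z : Fin 3 → ℤ) : emb (r * s) z = r • emb s z := by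
  ext i
  simp [emb]; ring

/-- the isometry used for congruent copies -/
theorem exists_congr {K : ℕ} (q : Fin 4 → Fin K) (h : 0 < nrm q) (p : Fin 3 → ℤ) :
    ∃ f : E3 ≃ᵢ E3, ∀ t : Fin 3 → ℤ, f (emb 1 t) = emb (1 / (nrm q : ℝ)) (p + rq q t) := by
  have hm : (0 : ℝ) < nrm q := by exact_mod_cast h
  obtain ⟨f, hf⟩ := exists_iso ((q 0 : ℕ) : ℝ) ((q 1 : ℕ) : ℝ) ((q 2 : ℕ) : ℝ) ((q 3 : ℕ) : ℝ)
    (nrm q) hm (by unfold nrm; push_cast; ring) (emb (1 / (nrm q : ℝ)) p)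
  refine ⟨f, fun t => ?_⟩
  rw [hf, rotL_emb, emb_add, add_comm, ← emb_smul, mul_one]

/-- the isometry used for similar copies -/
theorem exists_sim {K : ℕ} (q : Fin 4 → Fin K) (h : 0 < nrm q) (p : Fin 3 → ℤ) :
    ∃ f : E3 ≃ᵢ E3, ∀ t : Fin 3 → ℤ, f ((nrm q : ℝ) • emb 1 t) = emb 1 (p + rq q t) := by
  have hm : (0 : ℝ) < nrm q := by exact_mod_cast h
  obtain ⟨f, hf⟩ := exists_iso ((q 0 : ℕ) : ℝ) ((q 1 : ℕ) : ℝ) ((q 2 : ℕ) : ℝ) ((q 3 : ℕ) : ℝ)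
    (nrm q) hm (by unfold nrm; push_cast; ring) (emb 1 p)
  refine ⟨f, fun t => ?_⟩
  rw [hf, ← emb_smul, rotL_emb, emb_add, add_comm, ← emb_smul]
  congr 2
  field_simp

/-! ### Integer part -/

/-- cross product -/
def cr (u w : Fin 3 → ℤ) : Fin 3 → ℤ :=
  ![u 1 * w 2 - u 2 * w 1, u 2 * w 0 - u 0 * w 2, u 0 * w 1 - u 1 * w 0]

/-- dot product -/
def dt (u w : Fin 3 → ℤ) : ℤ := u 0 * w 0 + u 1 * w 1 + u 2 * w 2

theorem zero_of_orth (u w b : Fin 3 → ℤ) (hc : dt (cr u w) (cr u w) ≠ 0) (h1 : dt b u = 0)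
    (h2 : dt b w = 0) (h3 : dt b (cr u w) = 0) : b 0 = 0 ∧ b 1 = 0 ∧ b 2 = 0 := by
  have key : ∀ i, b i * dt (cr u w) (cr u w) =
      dt b (cr u w) * (cr u w) i + dt b u * (cr w (cr u w)) i + dt b w * (cr (cr u w) u) i := by
    intro i
    fin_cases i <;> simp [dt, cr] <;> ring
  have h : ∀ i, b i = 0 := by
    intro i
    have := key i
    rw [h1, h2, h3] at this
    simp only [zero_mul, add_zero] at this
    exact (mul_eq_zero.1 this).resolve_right hc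
  exact ⟨h 0, h 1, h 2⟩

theorem dt_rq {K : ℕ} (q : Fin 4 → Fin K) (u w : Fin 3 → ℤ) :
    dt (rq q u) (rq q w) = (nrm q : ℤ) ^ 2 * dt u w := by
  simp [dt, rq, rot, nrm]; ring

theorem cr_rq {K : ℕ} (q : Fin 4 → Fin K) (u w : Fin 3 → ℤ) (i : Fin 3) :
    cr (rq q u) (rq q w) i = (nrm q : ℤ) * rq q (cr u w) i := by
  fin_cases i <;> simp [cr, rq, rot, nrm] <;> ring

theorem rq_sub {K : ℕ} (q : Fin 4 → Fin K) (u w : Fin 3 → ℤ) :
    rq q (u - w) = rq q u - rq q w := by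
  ext i
  fin_cases i <;> simp [rq, rot] <;> ring

theorem cr_self_zero (u w : Fin 3 → ℤ) (h : dt u u = 0) : dt (cr u w) (cr u w) = 0 := by
  unfold dt at h
  have h0 : u 0 = 0 := by nlinarith [mul_self_nonneg (u 0), mul_self_nonneg (u 1), mul_self_nonneg (u 2)]
  have h1 : u 1 = 0 := by nlinarith [mul_self_nonneg (u 0), mul_self_nonneg (u 1), mul_self_nonneg (u 2)]
  have h2 : u 2 = 0 := by nlinarith [mul_self_nonneg (u 0), mul_self_nonneg (u 1), mul_self_nonneg (u 2)]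
  simp [dt, cr, h0, h1, h2]

theorem q_eq {K : ℕ} (q q' : Fin 4 → Fin K) (hq : 0 < nrm q) (u w : Fin 3 → ℤ)
    (hc : dt (cr u w) (cr u w) ≠ 0) (h1 : rq q u = rq q' u) (h2 : rq q w = rq q' w) : q = q' := by
  have hu : dt u u ≠ 0 := fun h => hc (cr_self_zero u w h)
  have hm : (nrm q : ℤ) ^ 2 = (nrm q' : ℤ) ^ 2 := by
    have a1 := dt_rq q u u
    have a2 := dt_rq q' u u
    rw [h1, a2] at a1
    exact (mul_right_cancel₀ hu a1).symm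
  have hm' : nrm q = nrm q' := by
    have := (sq_eq_sq₀ (by positivity) (by positivity)).1 hm
    exact_mod_cast this
  have h3 : ∀ i, rq q (cr u w) i = rq q' (cr u w) i := by
    intro i
    have a1 := cr_rq q u w i
    have a2 := cr_rq q' u w i
    rw [h1, h2, a2, ← hm'] at a1
    have hq0 : (nrm q : ℤ) ≠ 0 := by exact_mod_cast hq.ne'
    exact (mul_left_cancel₀ hq0 a1).symm
  have r0 := zero_of_orth u w
    ![(((q 0 : ℕ) : ℤ) ^ 2 + ((q 1 : ℕ) : ℤ) ^ 2 - ((q 2 : ℕ) : ℤ) ^ 2 - ((q 3 : ℕ) : ℤ) ^ 2) -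
        (((q' 0 : ℕ) : ℤ) ^ 2 + ((q' 1 : ℕ) : ℤ) ^ 2 - ((q' 2 : ℕ) : ℤ) ^ 2 - ((q' 3 : ℕ) : ℤ) ^ 2),
      2 * (((q 1 : ℕ) : ℤ) * ((q 2 : ℕ) : ℤ) - ((q 0 : ℕ) : ℤ) * ((q 3 : ℕ) : ℤ)) -
      2 * (((q' 1 : ℕ) : ℤ) * ((q' 2 : ℕ) : ℤ) - ((q' 0 : ℕ) : ℤ) * ((q' 3 : ℕ) : ℤ)),
      2 * (((q 1 : ℕ) : ℤ) * ((q 3 : ℕ) : ℤ) + ((q 0 : ℕ) : ℤ) * ((q 2 : ℕ) : ℤ)) -
      2 * (((q' 1 : ℕ) : ℤ) * ((q' 3 : ℕ) : ℤ) + ((q' 0 : ℕ) : ℤ) * ((q' 2 : ℕ) : ℤ))] hc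
    (by
      have := congrFun h1 0
      simp only [rq, rot, Matrix.cons_val] at this
      simp only [dt, Matrix.cons_val]
      linear_combination this)
    (by
      have := congrFun h2 0
      simp only [rq, rot, Matrix.cons_val] at this
      simp only [dt, Matrix.cons_val]
      linear_combination this)
    (by
      have := h3 0
      simp only [rq, rot, Matrix.cons_val] at this
      simp only [dt, Matrix.cons_val]
      linear_combination this)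
  have r1 := zero_of_orth u w
    ![2 * (((q 1 : ℕ) : ℤ) * ((q 2 : ℕ) : ℤ) + ((q 0 : ℕ) : ℤ) * ((q 3 : ℕ) : ℤ)) -
      2 * (((q' 1 : ℕ) : ℤ) * ((q' 2 : ℕ) : ℤ) + ((q' 0 : ℕ) : ℤ) * ((q' 3 : ℕ) : ℤ)),
      (((q 0 : ℕ) : ℤ) ^ 2 - ((q 1 : ℕ) : ℤ) ^ 2 + ((q 2 : ℕ) : ℤ) ^ 2 - ((q 3 : ℕ) : ℤ) ^ 2) -
        (((q' 0 : ℕ) : ℤ) ^ 2 - ((q' 1 : ℕ) : ℤ) ^ 2 + ((q' 2 : ℕ) : ℤ) ^ 2 - ((q' 3 : ℕ) : ℤ) ^ 2),
      2 * (((q 2 : ℕ) : ℤ) * ((q 3 : ℕ) : ℤ) - ((q 0 : ℕ) : ℤ) * ((q 1 : ℕ) : ℤ)) -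
      2 * (((q' 2 : ℕ) : ℤ) * ((q' 3 : ℕ) : ℤ) - ((q' 0 : ℕ) : ℤ) * ((q' 1 : ℕ) : ℤ))] hc
    (by
      have := congrFun h1 1
      simp only [rq, rot, Matrix.cons_val] at this
      simp only [dt, Matrix.cons_val]
      linear_combination this)
    (by
      have := congrFun h2 1
      simp only [rq, rot, Matrix.cons_val] at this
      simp only [dt, Matrix.cons_val]
      linear_combination this)
    (by
      have := h3 1
      simp only [rq, rot, Matrix.cons_val] at this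
      simp only [dt, Matrix.cons_val]
      linear_combination this)
  have e0 : ((q 0 : ℕ) : ℤ) ^ 2 + ((q 1 : ℕ) : ℤ) ^ 2 - ((q 2 : ℕ) : ℤ) ^ 2 - ((q 3 : ℕ) : ℤ) ^ 2 -
        (((q' 0 : ℕ) : ℤ) ^ 2 + ((q' 1 : ℕ) : ℤ) ^ 2 - ((q' 2 : ℕ) : ℤ) ^ 2 - ((q' 3 : ℕ) : ℤ) ^ 2) = 0 := by
    simpa using r0.1
  have e1 : ((q 0 : ℕ) : ℤ) ^ 2 - ((q 1 : ℕ) : ℤ) ^ 2 + ((q 2 : ℕ) : ℤ) ^ 2 - ((q 3 : ℕ) : ℤ) ^ 2 -
        (((q' 0 : ℕ) : ℤ) ^ 2 - ((q' 1 : ℕ) : ℤ) ^ 2 + ((q' 2 : ℕ) : ℤ) ^ 2 - ((q' 3 : ℕ) : ℤ) ^ 2) = 0 := by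
    simpa using r1.2.1
  have r2 := zero_of_orth u w
    ![2 * (((q 1 : ℕ) : ℤ) * ((q 3 : ℕ) : ℤ) - ((q 0 : ℕ) : ℤ) * ((q 2 : ℕ) : ℤ)) -
      2 * (((q' 1 : ℕ) : ℤ) * ((q' 3 : ℕ) : ℤ) - ((q' 0 : ℕ) : ℤ) * ((q' 2 : ℕ) : ℤ)),
      2 * (((q 2 : ℕ) : ℤ) * ((q 3 : ℕ) : ℤ) + ((q 0 : ℕ) : ℤ) * ((q 1 : ℕ) : ℤ)) -
      2 * (((q' 2 : ℕ) : ℤ) * ((q' 3 : ℕ) : ℤ) + ((q' 0 : ℕ) : ℤ) * ((q' 1 : ℕ) : ℤ)),
      (((q 0 : ℕ) : ℤ) ^ 2 - ((q 1 : ℕ) : ℤ) ^ 2 - ((q 2 : ℕ) : ℤ) ^ 2 + ((q 3 : ℕ) : ℤ) ^ 2) -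
        (((q' 0 : ℕ) : ℤ) ^ 2 - ((q' 1 : ℕ) : ℤ) ^ 2 - ((q' 2 : ℕ) : ℤ) ^ 2 + ((q' 3 : ℕ) : ℤ) ^ 2)] hc
    (by
      have := congrFun h1 2
      simp only [rq, rot, Matrix.cons_val] at this
      simp only [dt, Matrix.cons_val]
      linear_combination this)
    (by
      have := congrFun h2 2
      simp only [rq, rot, Matrix.cons_val] at this
      simp only [dt, Matrix.cons_val]
      linear_combination this)
    (by
      have := h3 2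
      simp only [rq, rot, Matrix.cons_val] at this
      simp only [dt, Matrix.cons_val]
      linear_combination this)
  have e2 : ((q 0 : ℕ) : ℤ) ^ 2 - ((q 1 : ℕ) : ℤ) ^ 2 - ((q 2 : ℕ) : ℤ) ^ 2 + ((q 3 : ℕ) : ℤ) ^ 2 -
        (((q' 0 : ℕ) : ℤ) ^ 2 - ((q' 1 : ℕ) : ℤ) ^ 2 - ((q' 2 : ℕ) : ℤ) ^ 2 + ((q' 3 : ℕ) : ℤ) ^ 2) = 0 := by
    simpa using r2.2.2
  have e3 : ((q 0 : ℕ) : ℤ) ^ 2 + ((q 1 : ℕ) : ℤ) ^ 2 + ((q 2 : ℕ) : ℤ) ^ 2 + ((q 3 : ℕ) : ℤ) ^ 2 =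
        ((q' 0 : ℕ) : ℤ) ^ 2 + ((q' 1 : ℕ) : ℤ) ^ 2 + ((q' 2 : ℕ) : ℤ) ^ 2 + ((q' 3 : ℕ) : ℤ) ^ 2 := by
    have := hm'
    unfold nrm at this
    exact_mod_cast this
  have f0 : ((q 0 : ℕ) : ℤ) ^ 2 = ((q' 0 : ℕ) : ℤ) ^ 2 := by linarith
  have f1 : ((q 1 : ℕ) : ℤ) ^ 2 = ((q' 1 : ℕ) : ℤ) ^ 2 := by linarith
  have f2 : ((q 2 : ℕ) : ℤ) ^ 2 = ((q' 2 : ℕ) : ℤ) ^ 2 := by linarith
  have f3 : ((q 3 : ℕ) : ℤ) ^ 2 = ((q' 3 : ℕ) : ℤ) ^ 2 := by linarith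
  have g : ∀ i, ((q i : ℕ) : ℤ) ^ 2 = ((q' i : ℕ) : ℤ) ^ 2 := by
    intro i
    fin_cases i
    · exact f0
    · exact f1
    · exact f2
    · exact f3
  funext i
  apply Fin.ext
  have := (sq_eq_sq₀ (by positivity) (by positivity)).1 (g i)
  exact_mod_cast this

theorem abs3 (m B A1 A2 A3 x1 x2 x3 : ℤ) (hm : 0 ≤ m) (k1 : |A1| ≤ m) (k2 : |A2| ≤ m)
    (k3 : |A3| ≤ m) (l1 : |x1| ≤ B) (l2 : |x2| ≤ B) (l3 : |x3| ≤ B) :
    |A1 * x1 + A2 * x2 + A3 * x3| ≤ 3 * m * B := by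
  have key : ∀ A : ℤ, ∀ x : ℤ, |A| ≤ m → |x| ≤ B → |A * x| ≤ m * B := by
    intro A x hA hx
    rw [abs_mul]
    exact mul_le_mul hA hx (abs_nonneg _) hm
  have l1 := key A1 x1 k1 l1
  have l2 := key A2 x2 k2 l2
  have l3 := key A3 x3 k3 l3
  calc |A1 * x1 + A2 * x2 + A3 * x3| ≤ |A1 * x1 + A2 * x2| + |A3 * x3| := abs_add_le _ _
    _ ≤ |A1 * x1| + |A2 * x2| + |A3 * x3| := by gcongr; exact abs_add_le _ _
    _ ≤ 3 * m * B := by linarith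

/-- bound for the coordinates of the image -/
theorem rq_bound {K : ℕ} (q : Fin 4 → Fin K) (t : Fin 3 → ℤ) (B : ℤ) (ht : ∀ i, |t i| ≤ B)
    (i : Fin 3) : |rq q t i| ≤ 3 * (nrm q : ℤ) * B := by
  have hn : (nrm q : ℤ) = ((q 0 : ℕ) : ℤ) ^ 2 + ((q 1 : ℕ) : ℤ) ^ 2 + ((q 2 : ℕ) : ℤ) ^ 2 +
      ((q 3 : ℕ) : ℤ) ^ 2 := by unfold nrm; push_cast; ring
  unfold rq
  rw [hn]
  generalize ((q 0 : ℕ) : ℤ) = a
  generalize ((q 1 : ℕ) : ℤ) = b
  generalize ((q 2 : ℕ) : ℤ) = c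
  generalize ((q 3 : ℕ) : ℤ) = d
  have hm : 0 ≤ a ^ 2 + b ^ 2 + c ^ 2 + d ^ 2 := by positivity
  have sa := sq_nonneg a
  have sb := sq_nonneg b
  have sc := sq_nonneg c
  have sd := sq_nonneg d
  have two : ∀ x y : ℤ, 2 * (x * y) ≤ x ^ 2 + y ^ 2 ∧ -(x ^ 2 + y ^ 2) ≤ 2 * (x * y) := by
    intro x y
    constructor
    · nlinarith [sq_nonneg (x - y)]
    · nlinarith [sq_nonneg (x + y)]
  have ab := two a b
  have ac := two a c
  have ad := two a d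
  have bc := two b c
  have bd := two b d
  have cd := two c d
  fin_cases i
  · simp only [rot, Fin.zero_eta, Matrix.cons_val]
    refine abs3 _ _ _ _ _ _ _ _ hm ?_ ?_ ?_ (ht 0) (ht 1) (ht 2) <;> rw [abs_le] <;>
      constructor <;> linarith
  · simp only [rot, Fin.mk_one, Matrix.cons_val]
    refine abs3 _ _ _ _ _ _ _ _ hm ?_ ?_ ?_ (ht 0) (ht 1) (ht 2) <;> rw [abs_le] <;>
      constructor <;> linarith
  · simp only [rot, Fin.reduceFinMk, Matrix.cons_val]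
    refine abs3 _ _ _ _ _ _ _ _ hm ?_ ?_ ?_ (ht 0) (ht 1) (ht 2) <;> rw [abs_le] <;>
      constructor <;> linarith

/-! ### Counting -/

theorem count_images {α β ι : Type*} [DecidableEq α] [DecidableEq β] (D : Finset α) (T : Finset ι)
    (g : α → ι → β) (hinj : ∀ a ∈ D, ∀ b ∈ D, (∀ t ∈ T, g a t = g b t) → a = b) :
    D.card ≤ T.card ^ T.card * (D.image (fun a => T.image (g a))).card := by
  classical
  refine Finset.card_le_mul_card_image D _ ?_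
  intro S hS
  obtain ⟨a0, ha0, rfl⟩ := Finset.mem_image.1 hS
  have h1 : (T.image (g a0)).card ≤ T.card := Finset.card_image_le
  have h2 : (Fintype.piFinset (fun _ : T => T.image (g a0))).card ≤ T.card ^ T.card := by
    rw [Fintype.card_piFinset]
    simp only [Finset.prod_const, Finset.card_univ, Fintype.card_coe]
    exact Nat.pow_le_pow_left h1 _
  refine le_trans ?_ h2
  refine Finset.card_le_card_of_injOn (fun a => fun t : T => g a t) ?_ ?_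
  · intro a ha
    simp only [Finset.coe_filter, Set.mem_ofPred_eq] at ha
    simp only [Finset.mem_coe, Fintype.mem_piFinset]
    intro t
    rw [← ha.2]
    exact Finset.mem_image_of_mem _ t.2
  · intro a ha b hb hab
    simp only [Finset.coe_filter, Set.mem_ofPred_eq] at ha hb
    exact hinj a ha.1 b hb.1 fun t ht => congrFun hab ⟨t, ht⟩

/-- the box `[0, W)³` -/
noncomputable def cube (W : ℕ) : Finset (Fin 3 → ℤ) := Fintype.piFinset fun _ => Finset.Ico (0 : ℤ) W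

theorem cube_card (W : ℕ) : (cube W).card = W ^ 3 := by
  simp [cube, Fintype.card_piFinset]

/-- the box `[H, 2H)³` -/
noncomputable def mid (H : ℕ) : Finset (Fin 3 → ℤ) := Fintype.piFinset fun _ => Finset.Ico (H : ℤ) (2 * H)

theorem mid_card (H : ℕ) : (mid H).card = H ^ 3 := by
  have : (2 * (H : ℤ) - H).toNat = H := by
    have h1 : 2 * (H : ℤ) - H = H := by ring
    rw [h1]; simp
  simp [mid, Fintype.card_piFinset, this]

/-- `T` is not contained in a line -/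
def NonCol (T : Finset (Fin 3 → ℤ)) : Prop :=
  ∃ t0 ∈ T, ∃ t1 ∈ T, ∃ t2 ∈ T, dt (cr (t1 - t0) (t2 - t0)) (cr (t1 - t0) (t2 - t0)) ≠ 0

/-- the master counting lemma: many different placed copies of `T` inside the scaled cube. -/
theorem master {K : ℕ} (Q : Finset (Fin 4 → Fin K)) (hQ : ∀ q ∈ Q, 0 < nrm q)
    (T : Finset (Fin 3 → ℤ)) (hT : NonCol T) (B : ℕ) (hB : 1 ≤ B) (hTB : ∀ t ∈ T, ∀ i, |t i| ≤ (B : ℤ))
    (s : ℝ) (hs : s ≠ 0) :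
    ∃ 𝒮 : Finset (Finset E3),
      (12 * B * K ^ 2) ^ 3 * Q.card ≤ T.card ^ T.card * 𝒮.card ∧
      ∀ S ∈ 𝒮, S ⊆ (cube (3 * (12 * B * K ^ 2))).image (emb s) ∧
        ∃ q ∈ Q, ∃ p : Fin 3 → ℤ, S = T.image fun t => emb s (p + rq q t) := by
  classical
  set H := 12 * B * K ^ 2 with hH
  refine ⟨((mid H) ×ˢ Q).image (fun a => T.image fun t => emb s (a.1 + rq a.2 t)), ?_, ?_⟩
  · have h1 := count_images ((mid H) ×ˢ Q) T (fun a t => emb s (a.1 + rq a.2 t)) (by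
      rintro ⟨p, q⟩ ha ⟨p', q'⟩ hb h
      simp only [Finset.mem_product] at ha hb
      obtain ⟨t0, h0, t1, h1, t2, h2, hne⟩ := hT
      have e : ∀ t ∈ T, p + rq q t = p' + rq q' t := fun t ht => emb_inj s hs (h t ht)
      have e0 := e t0 h0
      have e1 := e t1 h1
      have e2 := e t2 h2
      have hq : q = q' := by
        refine q_eq q q' (hQ q ha.2) (t1 - t0) (t2 - t0) hne ?_ ?_
        · rw [rq_sub, rq_sub]
          have : p + rq q t1 - (p + rq q t0) = p' + rq q' t1 - (p' + rq q' t0) := by rw [e0, e1]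
          simpa using this
        · rw [rq_sub, rq_sub]
          have : p + rq q t2 - (p + rq q t0) = p' + rq q' t2 - (p' + rq q' t0) := by rw [e0, e2]
          simpa using this
      subst hq
      have hp : p = p' := add_right_cancel e0
      rw [hp])
    rw [Finset.card_product, mid_card] at h1
    exact h1
  · intro S hS
    obtain ⟨⟨p, q⟩, ha, rfl⟩ := Finset.mem_image.1 hS
    simp only [Finset.mem_product] at ha
    refine ⟨?_, q, ha.2, p, rfl⟩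
    intro x hx
    obtain ⟨t, ht, rfl⟩ := Finset.mem_image.1 hx
    refine Finset.mem_image_of_mem _ ?_
    simp only [cube, Fintype.mem_piFinset, Finset.mem_Ico]
    intro i
    have hp := ha.1
    simp only [mid, Fintype.mem_piFinset, Finset.mem_Ico] at hp
    have hpi := hp i
    have hb := abs_le.1 (rq_bound q t B (hTB t ht) i)
    have hlt : (nrm q : ℤ) < 4 * (K : ℤ) ^ 2 := by exact_mod_cast nrm_lt q
    have hB' : (1 : ℤ) ≤ B := by exact_mod_cast hB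
    have hHz : (H : ℤ) = 12 * B * K ^ 2 := by rw [hH]; push_cast; ring
    have h3 : 3 * (nrm q : ℤ) * B < H := by rw [hHz]; nlinarith
    push_cast
    simp only [Pi.add_apply]
    constructor
    · linarith [hpi.1]
    · linarith [hpi.2]

end Pool.Agent.H791R3
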