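import Mathlib
import Pool.Agent.H791R3.Geom

set_option autoImplicit false

namespace Pool.Agent.H791R3

open Finset Filter Topology

theorem pick (B n : ℕ) (hB : 1 ≤ B) :
    ∃ X : ℕ, (36 * B * X ^ 2) ^ 3 ≤ n ∧ n < (36 * B * (X + 1) ^ 2) ^ 3 := by
  have hex : ∃ X : ℕ, n < (36 * B * (X + 1) ^ 2) ^ 3 := by
    refine ⟨n, ?_⟩
    have h1 : n < 36 * B * (n + 1) ^ 2 := by nlinarith
    calc n < 36 * B * (n + 1) ^ 2 := h1
      _ ≤ (36 * B * (n + 1) ^ 2) ^ 3 := Nat.le_self_pow (by norm_num) _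
  classical
  refine ⟨Nat.find hex, ?_, Nat.find_spec hex⟩
  rcases Nat.eq_zero_or_pos (Nat.find hex) with h | h
  · rw [h]; simp
  · have := Nat.find_min hex (m := Nat.find hex - 1) (by omega)
    rw [Nat.sub_add_cancel h] at this
    exact not_lt.1 this

theorem pick_large (B : ℕ) (_hB : 1 ≤ B) (X0 : ℕ) : ∀ᶠ n : ℕ in atTop, ∀ X : ℕ,
    n < (36 * B * (X + 1) ^ 2) ^ 3 → X0 ≤ X := by
  filter_upwards [eventually_ge_atTop ((36 * B * (X0 + 1) ^ 2) ^ 3)] with n hn X hX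
  by_contra hlt
  push Not at hlt
  have h1 : (36 * B * (X + 1) ^ 2) ^ 3 ≤ (36 * B * (X0 + 1) ^ 2) ^ 3 := by
    gcongr
  omega

theorem exists_bound (T : Finset (Fin 3 → ℤ)) : ∃ B : ℕ, 1 ≤ B ∧ ∀ t ∈ T, ∀ i, |t i| ≤ (B : ℤ) := by
  refine ⟨1 + ∑ t ∈ T, ∑ i, (t i).natAbs, by omega, fun t ht i => ?_⟩
  have h1 : (t i).natAbs ≤ ∑ i, (t i).natAbs :=
    Finset.single_le_sum (f := fun i => (t i).natAbs) (fun _ _ => Nat.zero_le _) (Finset.mem_univ i)
  have h2 : ∑ i, (t i).natAbs ≤ ∑ t ∈ T, ∑ i, (t i).natAbs :=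
    Finset.single_le_sum (f := fun t : Fin 3 → ℤ => ∑ i, (t i).natAbs) (fun _ _ => Nat.zero_le _) ht
  rw [Int.abs_eq_natAbs]
  have : (t i).natAbs ≤ 1 + ∑ t ∈ T, ∑ i, (t i).natAbs := by omega
  exact_mod_cast this

theorem rpow_help (x : ℝ) (hx : 0 ≤ x) (k : ℕ) : (x ^ 3) ^ ((k : ℝ) / 3) = x ^ k := by
  rw [← Real.rpow_natCast x 3, ← Real.rpow_mul hx, ← Real.rpow_natCast x k]
  congr 1
  push_cast
  ring

theorem extend {n : ℕ} (P : Finset E3) (h : P.card ≤ n) : ∃ P' : Finset E3, P ⊆ P' ∧ P'.card = n :=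
  Infinite.exists_superset_card_eq P n h

theorem emb_cube_card (W : ℕ) (s : ℝ) (hs : s ≠ 0) : ((cube W).image (emb s)).card = W ^ 3 := by
  rw [card_image_of_injective _ (emb_inj s hs), cube_card]

theorem NonCol.nonempty {T : Finset (Fin 3 → ℤ)} (hT : NonCol T) : 0 < T.card := by
  obtain ⟨t0, h0, _⟩ := hT
  exact Finset.card_pos.2 ⟨t0, h0⟩

/-- Many similar copies of a lattice pattern. -/
theorem sim_main (T : Finset (Fin 3 → ℤ)) (hT : NonCol T) :
    ∃ c : ℝ, 0 < c ∧ ∀ᶠ n : ℕ in atTop, ∃ (P : Finset E3) (𝒮 : Finset (Finset E3)), P.card = n ∧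
      c * (n : ℝ) ^ (5 / 3 : ℝ) ≤ 𝒮.card ∧ ∀ S ∈ 𝒮, S ⊆ P ∧
        ∃ (f : E3 ≃ᵢ E3) (r : ℝ), 0 < r ∧
          (fun x => f (r • x)) '' ((T.image (emb 1) : Finset E3) : Set E3) = (S : Set E3) := by
  classical
  obtain ⟨B, hB, hTB⟩ := exists_bound T
  set τ : ℕ := T.card ^ T.card with hτ
  have hτ0 : 0 < τ := pow_pos hT.nonempty _
  refine ⟨(12 * B) ^ 3 / (2 * τ * (144 * B) ^ 5), by positivity, ?_⟩
  filter_upwards [pick_large B hB 2] with n hn
  obtain ⟨K, hK1, hK2⟩ := pick B n hB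
  have hK := hn K hK2
  set Q : Finset (Fin 4 → Fin K) := univ.filter fun q => 0 < nrm q with hQ
  have hQc : K ^ 4 ≤ Q.card + 1 := by
    have h1 : (univ : Finset (Fin 4 → Fin K)).card = K ^ 4 := by simp
    have h2 : (univ.filter fun q : Fin 4 → Fin K => ¬ 0 < nrm q).card ≤ 1 := by
      rw [card_le_one]
      intro a ha b hb
      simp only [mem_filter, mem_univ, true_and, not_lt, Nat.le_zero] at ha hb
      funext i
      apply Fin.ext
      rw [nrm_zero ha i, nrm_zero hb i]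
    have h3 : Q.card + (univ.filter fun q : Fin 4 → Fin K => ¬ 0 < nrm q).card = K ^ 4 := by
      rw [← h1, hQ]
      exact Finset.card_filter_add_card_filter_not _
    omega
  obtain ⟨𝒮, hc, hS⟩ := master Q (fun q hq => by simpa [hQ] using hq) T hT B hB hTB 1 one_ne_zero
  obtain ⟨P, hP1, hP2⟩ := extend ((cube (3 * (12 * B * K ^ 2))).image (emb 1)) (n := n) (by
    rw [emb_cube_card _ _ one_ne_zero]
    calc (3 * (12 * B * K ^ 2)) ^ 3 = (36 * B * K ^ 2) ^ 3 := by ring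
      _ ≤ n := hK1)
  refine ⟨P, 𝒮, hP2, ?_, ?_⟩
  · have hKr : (2 : ℝ) ≤ K := by exact_mod_cast hK
    have hBr : (1 : ℝ) ≤ B := by exact_mod_cast hB
    have h1 : (n : ℝ) ≤ (144 * B * (K : ℝ) ^ 2) ^ 3 := by
      have h2 : (n : ℝ) ≤ (36 * B * ((K : ℝ) + 1) ^ 2) ^ 3 := by exact_mod_cast hK2.le
      refine h2.trans ?_
      have h3 : ((K : ℝ) + 1) ^ 2 ≤ (2 * K) ^ 2 := by gcongr; linarith
      calc (36 * B * ((K : ℝ) + 1) ^ 2) ^ 3 ≤ (36 * B * (2 * K) ^ 2) ^ 3 := by gcongr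
        _ = (144 * B * (K : ℝ) ^ 2) ^ 3 := by ring
    have h4 : (n : ℝ) ^ (5 / 3 : ℝ) ≤ (144 * B * (K : ℝ) ^ 2) ^ 5 := by
      have h5 := Real.rpow_le_rpow (by positivity) h1 (z := ((5 : ℕ) : ℝ) / 3) (by positivity)
      rw [rpow_help _ (by positivity) 5] at h5
      exact_mod_cast h5
    have h6 : (12 * B * (K : ℝ) ^ 2) ^ 3 * Q.card ≤ τ * 𝒮.card := by exact_mod_cast hc
    have h7 : (K : ℝ) ^ 4 ≤ Q.card + 1 := by exact_mod_cast hQc
    have h8 : (2 : ℝ) ^ 4 ≤ (K : ℝ) ^ 4 := by gcongr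
    have h9 : (K : ℝ) ^ 4 / 2 ≤ Q.card := by linarith
    have h10 : (12 * B * (K : ℝ) ^ 2) ^ 3 * ((K : ℝ) ^ 4 / 2) ≤ τ * 𝒮.card :=
      le_trans (by gcongr) h6
    have hτr : (0 : ℝ) < τ := by exact_mod_cast hτ0
    calc (12 * B : ℝ) ^ 3 / (2 * τ * (144 * B) ^ 5) * (n : ℝ) ^ (5 / 3 : ℝ)
        ≤ (12 * B : ℝ) ^ 3 / (2 * τ * (144 * B) ^ 5) * (144 * B * (K : ℝ) ^ 2) ^ 5 := by gcongr
      _ = (12 * B * (K : ℝ) ^ 2) ^ 3 * ((K : ℝ) ^ 4 / 2) / τ := by field_simp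
      _ ≤ 𝒮.card := by
          rw [div_le_iff₀ hτr]; linarith
  · intro S hSS
    obtain ⟨h1, q, hq, p, rfl⟩ := hS S hSS
    refine ⟨h1.trans hP1, ?_⟩
    have hq0 : 0 < nrm q := by simpa [hQ] using hq
    obtain ⟨f, hf⟩ := exists_sim q hq0 p
    refine ⟨f, nrm q, by exact_mod_cast hq0, ?_⟩
    rw [coe_image, coe_image, Set.image_image]
    exact Set.image_congr fun t _ => hf t

/-- the level of the sieve -/
def yy (X : ℕ) : ℕ := Nat.log 4 X / 2

theorem LL_sq_le (X : ℕ) (hX : X ≠ 0) : LL (yy X) ^ 2 ≤ X := by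
  calc LL (yy X) ^ 2 ≤ (4 ^ yy X) ^ 2 := Nat.pow_le_pow_left (LL_le _) 2
    _ = 4 ^ (yy X * 2) := by rw [pow_mul]
    _ ≤ 4 ^ Nat.log 4 X := Nat.pow_le_pow_right (by norm_num) (Nat.div_mul_le_self _ _)
    _ ≤ X := Nat.pow_log_le_self 4 hX

theorem yy_ge : ∀ᶠ X : ℕ in atTop, Real.log X / 4 ≤ yy X ∧ 3 ≤ yy X := by
  have hL : Tendsto (fun n : ℕ => Real.log (n : ℝ)) atTop atTop :=
    Real.tendsto_log_atTop.comp tendsto_natCast_atTop_atTop
  filter_upwards [eventually_ge_atTop (4 ^ 6), hL.eventually_ge_atTop 20] with X hX hX2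
  have hX0 : X ≠ 0 := by omega
  constructor
  · have h1 : X < 4 ^ (Nat.log 4 X + 1) := Nat.lt_pow_succ_log_self (by norm_num) X
    have h2 : (X : ℝ) ≤ 4 ^ (Nat.log 4 X + 1) := by exact_mod_cast h1.le
    have h3 : Real.log X ≤ (Nat.log 4 X + 1) * Real.log 4 := by
      have hX0' : (0 : ℝ) < X := by exact_mod_cast Nat.pos_of_ne_zero hX0
      have := Real.log_le_log hX0' h2
      rw [Real.log_pow] at this
      push_cast at this
      exact this
    have h4 : Real.log 4 < 1.4 := by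
      have : Real.log 4 = 2 * Real.log 2 := by
        rw [show (4 : ℝ) = 2 ^ 2 by norm_num, Real.log_pow]; norm_num
      have := Real.log_two_lt_d9
      linarith
    have h5 : (Nat.log 4 X : ℝ) ≤ 2 * yy X + 1 := by
      have : Nat.log 4 X ≤ 2 * yy X + 1 := by unfold yy; omega
      exact_mod_cast this
    have h6 : (0 : ℝ) ≤ Nat.log 4 X := by positivity
    have h7 : Real.log X ≤ (Nat.log 4 X + 1) * 1.4 := by
      refine h3.trans ?_
      gcongr
    linarith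
  · have : 6 ≤ Nat.log 4 X := Nat.le_log_of_pow_le (by norm_num) hX
    unfold yy
    omega

/-- Many congruent copies of a lattice pattern. -/
theorem congr_main (T : Finset (Fin 3 → ℤ)) (hT : NonCol T) :
    ∃ c : ℝ, 0 < c ∧ ∀ᶠ n : ℕ in atTop, ∃ (P : Finset E3) (𝒮 : Finset (Finset E3)), P.card = n ∧
      c * (n : ℝ) ^ (4 / 3 : ℝ) * Real.log (Real.log n) ≤ 𝒮.card ∧ ∀ S ∈ 𝒮, S ⊆ P ∧
        ∃ (f : E3 ≃ᵢ E3), f '' ((T.image (emb 1) : Finset E3) : Set E3) = (S : Set E3) := by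
  classical
  obtain ⟨B, hB, hTB⟩ := exists_bound T
  obtain ⟨c0, hc0, hz⟩ := zc_LL
  set τ : ℕ := T.card ^ T.card with hτ
  have hτ0 : 0 < τ := pow_pos hT.nonempty _
  have hBr : (1 : ℝ) ≤ B := by exact_mod_cast hB
  -- conditions on X
  have hL : Tendsto (fun n : ℕ => Real.log (n : ℝ)) atTop atTop :=
    Real.tendsto_log_atTop.comp tendsto_natCast_atTop_atTop
  have hcond : ∀ᶠ X : ℕ in atTop, (Real.log X / 4 ≤ yy X ∧ 3 ≤ yy X) ∧ 4 ≤ X ∧
      1 < (X : ℝ) ^ 2 / 16 * (c0 * Real.log 3) ∧ 3 * Real.log (144 * B) ≤ Real.log X ∧ 1 ≤ Real.log X := by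
    have hsq : Tendsto (fun n : ℕ => (n : ℝ) ^ 2 / 16 * (c0 * Real.log 3)) atTop atTop := by
      have h1 : Tendsto (fun n : ℕ => (n : ℝ) ^ 2) atTop atTop :=
        (tendsto_pow_atTop two_ne_zero).comp tendsto_natCast_atTop_atTop
      have h3 : 0 < c0 * Real.log 3 := mul_pos hc0 (Real.log_pos (by norm_num))
      exact (h1.atTop_div_const (by norm_num)).atTop_mul_const h3
    filter_upwards [yy_ge, eventually_ge_atTop 4, hsq.eventually_gt_atTop 1,
      hL.eventually_ge_atTop (3 * Real.log (144 * B)), hL.eventually_ge_atTop 1]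
      with X a1 a2 a3 a4 a5
    exact ⟨a1, a2, a3, a4, a5⟩
  obtain ⟨X0, hX0⟩ := eventually_atTop.1 hcond
  refine ⟨c0 * (12 * B) ^ 3 / (2048 * τ * (144 * B) ^ 4), by positivity, ?_⟩
  have hLL : Tendsto (fun n : ℕ => Real.log (Real.log (n : ℝ))) atTop atTop :=
    Real.tendsto_log_atTop.comp hL
  filter_upwards [pick_large B hB X0, hLL.eventually_ge_atTop (2 * Real.log 28)] with n hn hlln
  obtain ⟨X, hX1, hX2⟩ := pick B n hB
  obtain ⟨⟨y1, y2⟩, x4, xbig, xB, xl1⟩ := hX0 X (hn X hX2)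
  set y := yy X with hy
  set L := LL y with hLdef
  have hLpos : 0 < L := LL_pos y
  have hLsq : L ^ 2 ≤ X := LL_sq_le X (by omega)
  set K := L * (X / L) with hKdef
  have hKX : K ≤ X := Nat.mul_div_le X L
  have hKX2 : X ≤ 2 * K := by
    have h1 : X < L * (X / L) + L := by
      have := Nat.lt_mul_div_succ X hLpos
      rw [Nat.mul_succ] at this
      exact this
    have h2 : 2 * L ≤ X := by
      rcases Nat.lt_or_ge L 2 with h | h
      · omega
      · nlinarith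
    omega
  have hXr : (4 : ℝ) ≤ X := by exact_mod_cast x4
  have hKr : (X : ℝ) ≤ 2 * K := by exact_mod_cast hKX2
  have hK0 : 0 < K := by omega
  have hy3 : (3 : ℝ) ≤ y := by exact_mod_cast y2
  have hly3 : Real.log 3 ≤ Real.log y := Real.log_le_log (by norm_num) hy3
  have hzy := hz y y2
  rw [← hLdef] at hzy
  have hZ : c0 * Real.log 3 ≤ (zc L : ℝ) / (L : ℝ) ^ 3 := le_trans (by gcongr) hzy
  have hbig : 1 < (K : ℝ) ^ 2 / 4 * ((zc L : ℝ) / (L : ℝ) ^ 3) := by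
    refine xbig.trans_le ?_
    have h1 : (X : ℝ) ^ 2 / 16 ≤ (K : ℝ) ^ 2 / 4 := by nlinarith
    have : 0 < Real.log 3 := Real.log_pos (by norm_num)
    exact mul_le_mul h1 hZ (by positivity) (by positivity)
  obtain ⟨m, hm0, hm1, hm2⟩ := pigeon L K hLpos hK0 (Dvd.intro _ rfl) hbig
  obtain ⟨𝒮, hc, hS⟩ := master (QK K m) (fun q hq => by
    have : nrm q = m := by simpa [QK] using hq
    omega) T hT B hB hTB (1 / (m : ℝ)) (by positivity)
  obtain ⟨P, hP1, hP2⟩ := extend ((cube (3 * (12 * B * K ^ 2))).image (emb (1 / (m : ℝ)))) (n := n) (by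
    rw [emb_cube_card _ _ (by positivity)]
    calc (3 * (12 * B * K ^ 2)) ^ 3 = (36 * B * K ^ 2) ^ 3 := by ring
      _ ≤ (36 * B * X ^ 2) ^ 3 := by gcongr
      _ ≤ n := hX1)
  refine ⟨P, 𝒮, hP2, ?_, ?_⟩
  · have h1 : (n : ℝ) ≤ (144 * B * (X : ℝ) ^ 2) ^ 3 := by
      have h2 : (n : ℝ) ≤ (36 * B * ((X : ℝ) + 1) ^ 2) ^ 3 := by exact_mod_cast hX2.le
      refine h2.trans ?_
      have h3 : ((X : ℝ) + 1) ^ 2 ≤ (2 * X) ^ 2 := by gcongr; linarith
      calc (36 * B * ((X : ℝ) + 1) ^ 2) ^ 3 ≤ (36 * B * (2 * X) ^ 2) ^ 3 := by gcongr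
        _ = (144 * B * (X : ℝ) ^ 2) ^ 3 := by ring
    have h4 : (n : ℝ) ^ (4 / 3 : ℝ) ≤ (144 * B * (X : ℝ) ^ 2) ^ 4 := by
      have h5 := Real.rpow_le_rpow (by positivity) h1 (z := ((4 : ℕ) : ℝ) / 3) (by positivity)
      rw [rpow_help _ (by positivity) 4] at h5
      exact_mod_cast h5
    have hn1 : (1 : ℝ) ≤ n := by
      have : 1 ≤ n := by
        refine le_trans ?_ hX1
        have : 1 ≤ 36 * B * X ^ 2 := by
          have : 0 < X := by omega
          exact Nat.succ_le_of_lt (by positivity)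
        exact Nat.one_le_pow _ _ this
      exact_mod_cast this
    have hlogn : Real.log n ≤ 7 * Real.log X := by
      have h5 := Real.log_le_log (by linarith) h1
      rw [Real.log_pow, Real.log_mul (by positivity) (by positivity), Real.log_pow] at h5
      push_cast at h5
      linarith
    have hlog28 : Real.log n / 28 ≤ y := by linarith
    have hlogy : Real.log (Real.log n) / 2 ≤ Real.log y := by
      have hlogn0 : 0 < Real.log n := by
        by_contra hneg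
        push Not at hneg
        have h0 : Real.log n = 0 := le_antisymm hneg (Real.log_nonneg hn1)
        rw [h0, Real.log_zero] at hlln
        have : 0 < Real.log 28 := Real.log_pos (by norm_num)
        linarith
      have h5 := Real.log_le_log (by positivity) hlog28
      rw [Real.log_div hlogn0.ne' (by norm_num)] at h5
      linarith
    have hlogy0 : 0 ≤ Real.log y := Real.log_nonneg (by linarith)
    have h6 : (12 * B * (K : ℝ) ^ 2) ^ 3 * (QK K m).card ≤ τ * 𝒮.card := by exact_mod_cast hc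
    have h7 : (K : ℝ) ^ 2 / 4 * (c0 * Real.log y) ≤ (QK K m).card := le_trans (by gcongr) hm2
    have hK8 : (X : ℝ) ^ 8 / 256 ≤ (K : ℝ) ^ 8 := by
      have : (X : ℝ) ^ 8 ≤ (2 * K) ^ 8 := by gcongr
      calc (X : ℝ) ^ 8 / 256 ≤ (2 * K) ^ 8 / 256 := by gcongr
        _ = (K : ℝ) ^ 8 := by ring
    have hτr : (0 : ℝ) < τ := by exact_mod_cast hτ0
    have h8 : (12 * B : ℝ) ^ 3 * ((X : ℝ) ^ 8 / 256) / 4 * (c0 * Real.log y) ≤ τ * 𝒮.card := by
      calc (12 * B : ℝ) ^ 3 * ((X : ℝ) ^ 8 / 256) / 4 * (c0 * Real.log y)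
          ≤ (12 * B : ℝ) ^ 3 * ((K : ℝ) ^ 8) / 4 * (c0 * Real.log y) := by gcongr
        _ = (12 * B * (K : ℝ) ^ 2) ^ 3 * ((K : ℝ) ^ 2 / 4 * (c0 * Real.log y)) := by ring
        _ ≤ (12 * B * (K : ℝ) ^ 2) ^ 3 * (QK K m).card := by gcongr
        _ ≤ _ := h6
    have hX8 : (n : ℝ) ^ (4 / 3 : ℝ) / (144 * B) ^ 4 ≤ (X : ℝ) ^ 8 := by
      rw [div_le_iff₀ (by positivity)]
      calc (n : ℝ) ^ (4 / 3 : ℝ) ≤ (144 * B * (X : ℝ) ^ 2) ^ 4 := h4
        _ = _ := by ring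
    have hln0 : 0 ≤ Real.log (Real.log n) := by
      have : 0 < Real.log 28 := Real.log_pos (by norm_num)
      linarith
    calc c0 * (12 * B) ^ 3 / (2048 * τ * (144 * B) ^ 4) * (n : ℝ) ^ (4 / 3 : ℝ) *
          Real.log (Real.log n)
        = (12 * B : ℝ) ^ 3 * (((n : ℝ) ^ (4 / 3 : ℝ) / (144 * B) ^ 4) / 256) / 4 *
          (c0 * (Real.log (Real.log n) / 2)) / τ := by field_simp; ring
      _ ≤ (12 * B : ℝ) ^ 3 * ((X : ℝ) ^ 8 / 256) / 4 * (c0 * Real.log y) / τ := by gcongr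
      _ ≤ 𝒮.card := by
          rw [div_le_iff₀ hτr]; linarith
  · intro S hSS
    obtain ⟨h1, q, hq, p, rfl⟩ := hS S hSS
    refine ⟨h1.trans hP1, ?_⟩
    have hqm : nrm q = m := by simpa [QK] using hq
    obtain ⟨f, hf⟩ := exists_congr q (by omega) p
    refine ⟨f, ?_⟩
    rw [coe_image, coe_image, Set.image_image]
    refine Set.image_congr fun t _ => ?_
    rw [hf t, hqm]

end Pool.Agent.H791R3
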