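import Mathlib
import Pool.Agent.H791R3.Main

set_option autoImplicit false

namespace Pool.Agent.H791R3

open Finset

/-- integer coordinates -/
def IntCoord (T : Finset E3) : Prop := ∀ x ∈ T, ∀ i, ∃ z : ℤ, x i = z

theorem emb_floor {T : Finset E3} (hT : IntCoord T) {x : E3} (hx : x ∈ T) :
    emb 1 (fun i => ⌊x i⌋) = x := by
  ext i
  obtain ⟨z, hz⟩ := hT x hx i
  simp [emb, hz]

theorem cross_zero_collinear (a b c : Fin 3 → ℤ) (hab : a ≠ b)
    (h : dt (cr (b - a) (c - a)) (cr (b - a) (c - a)) = 0) :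
    Collinear ℝ ({emb 1 a, emb 1 b, emb 1 c} : Set E3) := by
  set u := b - a with hu
  set w := c - a with hw
  have hu0 : dt u u ≠ 0 := by
    intro h0
    apply hab
    have e : ∀ i, u i = 0 := by
      unfold dt at h0
      intro i
      fin_cases i
      · change u 0 = 0
        nlinarith [mul_self_nonneg (u 0), mul_self_nonneg (u 1), mul_self_nonneg (u 2)]
      · change u 1 = 0
        nlinarith [mul_self_nonneg (u 0), mul_self_nonneg (u 1), mul_self_nonneg (u 2)]
      · change u 2 = 0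
        nlinarith [mul_self_nonneg (u 0), mul_self_nonneg (u 1), mul_self_nonneg (u 2)]
    funext i
    have := e i
    simp only [hu, Pi.sub_apply] at this
    linarith
  have c0 : (cr u w) 0 = 0 ∧ (cr u w) 1 = 0 ∧ (cr u w) 2 = 0 := by
    unfold dt at h
    refine ⟨?_, ?_, ?_⟩ <;>
      nlinarith [mul_self_nonneg (cr u w 0), mul_self_nonneg (cr u w 1), mul_self_nonneg (cr u w 2)]
  have key : ∀ i, dt u u * w i = dt u w * u i := by
    intro i
    obtain ⟨k0, k1, k2⟩ := c0
    simp only [cr, Matrix.cons_val] at k0 k1 k2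
    fin_cases i
    · simp only [dt, Fin.zero_eta]
      linear_combination (-u 1) * k2 + u 2 * k1
    · simp only [dt, Fin.mk_one]
      linear_combination (-u 2) * k0 + u 0 * k2
    · simp only [dt, Fin.reduceFinMk]
      linear_combination (-u 0) * k1 + u 1 * k0
  rw [collinear_iff_of_mem (p₀ := emb 1 a) (by simp)]
  refine ⟨emb 1 u, ?_⟩
  have hur : (dt u u : ℝ) ≠ 0 := by exact_mod_cast hu0
  intro p hp
  simp only [Set.mem_insert_iff, Set.mem_singleton_iff] at hp
  rcases hp with rfl | rfl | rfl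
  · exact ⟨0, by simp⟩
  · refine ⟨1, ?_⟩
    ext i
    simp [emb, hu]
  · refine ⟨(dt u w : ℝ) / dt u u, ?_⟩
    ext i
    have hk : (dt u u : ℝ) * (w i : ℝ) = dt u w * u i := by exact_mod_cast key i
    have : (w i : ℝ) = (dt u w : ℝ) / dt u u * u i := by
      field_simp
      linarith
    simp only [vadd_eq_add, PiLp.add_apply, PiLp.smul_apply, smul_eq_mul, emb, one_mul]
    rw [← this, hw]
    simp

theorem lattice_pattern (T : Finset E3) (hc : 2 < T.card)
    (hT : AffineIndependent ℝ (fun x : T => (x : E3))) (hI : IntCoord T) :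
    ∃ T' : Finset (Fin 3 → ℤ), NonCol T' ∧ T'.image (emb 1) = T := by
  classical
  refine ⟨T.image fun x i => ⌊x i⌋, ?_, ?_⟩
  · obtain ⟨a, ha, b, hb, c, hc', hab, hac, hbc⟩ := Finset.two_lt_card.1 hc
    refine ⟨_, Finset.mem_image_of_mem _ ha, _, Finset.mem_image_of_mem _ hb, _,
      Finset.mem_image_of_mem _ hc', ?_⟩
    intro h0
    have h1 := cross_zero_collinear (fun i => ⌊a i⌋) (fun i => ⌊b i⌋) (fun i => ⌊c i⌋) (by
      intro h
      apply hab
      rw [← emb_floor hI ha, ← emb_floor hI hb, h]) h0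
    rw [emb_floor hI ha, emb_floor hI hb, emb_floor hI hc'] at h1
    have hinj : Function.Injective (![⟨a, ha⟩, ⟨b, hb⟩, ⟨c, hc'⟩] : Fin 3 → T) := by
      intro i j hij
      fin_cases i <;> fin_cases j <;> simp_all
    have h2 := hT.comp_embedding ⟨_, hinj⟩
    have h3 : (fun x : T => (x : E3)) ∘ (![⟨a, ha⟩, ⟨b, hb⟩, ⟨c, hc'⟩] : Fin 3 → T) = ![a, b, c] := by
      funext i
      fin_cases i <;> rfl
    have h4 : AffineIndependent ℝ ![a, b, c] := by
      rw [← h3]; exact h2
    exact (affineIndependent_iff_not_collinear_set.1 h4) h1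
  · ext x
    simp only [Finset.mem_image]
    constructor
    · rintro ⟨_, ⟨y, hy, rfl⟩, rfl⟩
      rw [emb_floor hI hy]; exact hy
    · intro hx
      exact ⟨_, ⟨x, hx, rfl⟩, emb_floor hI hx⟩

end Pool.Agent.H791R3
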